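import Mathlib
import Pool.Agent.Helper35.HC.StF

/-!
Project HC (MP_925021_gt), module RTE: the rates.
-/

set_option autoImplicit false

namespace Helper81.HC

open Helper35.HC Helper35.HSF Helper35.MS Helper35.PI Helper35.PI2 Helper32.CL
open scoped ContDiff Manifold Topology ENNReal BigOperators
open MeasureTheory Set Filter

theorem rte_real {n C C' C₂ σ σ' s Λ Z : ℝ} (hn : 2 ≤ n) (hC : 1 ≤ C) (hC' : 0 < C')
    (hC₂ : 0 < C₂) (hσ' : 0 < σ') (hσσ : σ' ≤ σ) (hσ : σ < 1) (hs0 : 0 < s) (hs1 : s ≤ 1)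
    (hΛ : 1 ≤ Λ) (ha : C' * Λ ^ (-σ') ≤ 1 / 2) (hb : C₂ * s ^ σ ≤ 1 / 2) (hY : Z ≤ Λ)
    (hup : 2 / n * ((1 - C' * Λ ^ (-σ')) * Λ * s) ≤ 1)
    (hlo : 1 - C₂ * s ^ σ ≤ 2 / n * (s * Z)) :
    (∀ Y, (1 - C' * Λ ^ (-σ')) * Λ ≤ Y → Y ≤ Λ →
      |2 / n * (s * Y) - 1| ≤ (4 * C' + C₂ + C * n ^ 2) * s ^ σ') ∧
    C * Λ ^ (1 - σ) ≤ (4 * C' + C₂ + C * n ^ 2) * s ^ (σ' - 1) ∧
    C * Λ ^ (2 - σ) ≤ (4 * C' + C₂ + C * n ^ 2) * s ^ (σ' - 2) := by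
  have hn0 : 0 < n := by linarith
  have hΛ0 : 0 < Λ := by linarith
  obtain ⟨a, had⟩ : ∃ a, a = C' * Λ ^ (-σ') := ⟨_, rfl⟩
  obtain ⟨b, hbd⟩ : ∃ b, b = C₂ * s ^ σ := ⟨_, rfl⟩
  obtain ⟨X, hXd⟩ : ∃ X, X = 2 / n * (s * Λ) := ⟨_, rfl⟩
  rw [← had] at ha hup ⊢
  rw [← hbd] at hb hlo
  have ha0 : 0 ≤ a := by rw [had]; positivity
  have hb0 : 0 ≤ b := by rw [hbd]; positivity
  have hn2 : 0 < 2 / n := by positivity
  have hX1 : 1 - b ≤ X := by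
    rw [hXd]
    refine hlo.trans ?_
    exact mul_le_mul_of_nonneg_left (mul_le_mul_of_nonneg_left hY hs0.le) hn2.le
  have hX2 : (1 - a) * X ≤ 1 := by
    rw [hXd]
    linarith [hup, show 2 / n * ((1 - a) * Λ * s) = (1 - a) * (2 / n * (s * Λ)) by ring]
  -- `Λ ≥ 1/(2s)`
  have hsΛ : 1 ≤ 2 * s * Λ := by
    have h1 : (1 : ℝ) / 2 ≤ X := by linarith
    rw [hXd, div_mul_eq_mul_div, le_div_iff₀ hn0] at h1
    nlinarith
  -- `Λ^(-σ') ≤ 2 s^σ'`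
  have hpow : Λ ^ (-σ') ≤ 2 * s ^ σ' := by
    have h1 : (1 / (2 * s)) ≤ Λ := by
      rw [div_le_iff₀ (by positivity)]
      linarith
    have h2 : Λ ^ (-σ') ≤ (1 / (2 * s)) ^ (-σ') :=
      Real.rpow_le_rpow_of_nonpos (by positivity) h1 (by linarith)
    have h3 : (1 / (2 * s)) ^ (-σ') = (2 * s) ^ σ' := by
      rw [one_div, Real.inv_rpow (by positivity), Real.rpow_neg (by positivity), inv_inv]
    have h4 : (2 * s) ^ σ' = 2 ^ σ' * s ^ σ' := Real.mul_rpow (by norm_num) hs0.le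
    have h5 : (2 : ℝ) ^ σ' ≤ 2 := by
      calc (2 : ℝ) ^ σ' ≤ 2 ^ (1 : ℝ) :=
            Real.rpow_le_rpow_of_exponent_le (by norm_num) (by linarith)
        _ = 2 := Real.rpow_one 2
    have h6 : 0 ≤ s ^ σ' := by positivity
    rw [h3, h4] at h2
    exact h2.trans (mul_le_mul_of_nonneg_right h5 h6)
  have hab : a ≤ 2 * C' * s ^ σ' := by
    rw [had]
    nlinarith
  have hbb : b ≤ C₂ * s ^ σ' := by
    rw [hbd]
    exact mul_le_mul_of_nonneg_left (Real.rpow_le_rpow_of_exponent_ge hs0 hs1 hσσ) hC₂.le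
  have hsσ : 0 ≤ s ^ σ' := by positivity
  have hCn : 0 ≤ C * n ^ 2 := by positivity
  have hX3 : X ≤ 1 + 2 * a := by
    by_contra hcon
    push Not at hcon
    have h1 : (1 - a) * (1 + 2 * a) < (1 - a) * X :=
      mul_lt_mul_of_pos_left hcon (by linarith)
    nlinarith
  have hΛn : Λ ≤ n / s := by
    rw [le_div_iff₀ hs0]
    have h1 : X ≤ 2 := by linarith
    rw [hXd, div_mul_eq_mul_div, div_le_iff₀ hn0] at h1
    linarith
  refine ⟨fun Y hY1 hY2 => ?_, ?_, ?_⟩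
  · have h1 : 2 / n * (s * Y) ≤ X := by
      rw [hXd]
      exact mul_le_mul_of_nonneg_left (mul_le_mul_of_nonneg_left hY2 hs0.le) hn2.le
    have h2 : (1 - a) * X ≤ 2 / n * (s * Y) := by
      rw [hXd]
      have h3 := mul_le_mul_of_nonneg_left (mul_le_mul_of_nonneg_left hY1 hs0.le) hn2.le
      linarith [show 2 / n * (s * ((1 - a) * Λ)) = (1 - a) * (2 / n * (s * Λ)) by ring]
    have h3 : (1 - a) * (1 - b) ≤ (1 - a) * X :=
      mul_le_mul_of_nonneg_left hX1 (by linarith)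
    have h4 : 1 - a - b ≤ (1 - a) * (1 - b) := by nlinarith
    rw [abs_le]
    constructor
    · nlinarith
    · nlinarith
  · have h1 : Λ ^ (1 - σ) ≤ (n / s) ^ (1 - σ) :=
      Real.rpow_le_rpow hΛ0.le hΛn (by linarith)
    have h2 : (n / s) ^ (1 - σ) = n ^ (1 - σ) * s ^ (σ - 1) := by
      rw [Real.div_rpow hn0.le hs0.le, div_eq_mul_inv, ← Real.rpow_neg hs0.le, neg_sub]
    have h3 : n ^ (1 - σ) ≤ n ^ 2 := by
      rw [← Real.rpow_natCast]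
      exact Real.rpow_le_rpow_of_exponent_le (by linarith) (by push_cast; linarith)
    have h4 : s ^ (σ - 1) ≤ s ^ (σ' - 1) :=
      Real.rpow_le_rpow_of_exponent_ge hs0 hs1 (by linarith)
    have h5 : 0 ≤ s ^ (σ' - 1) := by positivity
    have h6 : Λ ^ (1 - σ) ≤ n ^ 2 * s ^ (σ' - 1) := by
      rw [h2] at h1
      exact h1.trans (mul_le_mul h3 h4 (by positivity) (by positivity))
    have h7 : C * Λ ^ (1 - σ) ≤ C * (n ^ 2 * s ^ (σ' - 1)) :=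
      mul_le_mul_of_nonneg_left h6 (by linarith)
    nlinarith [mul_nonneg (show (0 : ℝ) ≤ 4 * C' + C₂ by linarith) h5]
  · have h1 : Λ ^ (2 - σ) ≤ (n / s) ^ (2 - σ) :=
      Real.rpow_le_rpow hΛ0.le hΛn (by linarith)
    have h2 : (n / s) ^ (2 - σ) = n ^ (2 - σ) * s ^ (σ - 2) := by
      rw [Real.div_rpow hn0.le hs0.le, div_eq_mul_inv, ← Real.rpow_neg hs0.le, neg_sub]
    have h3 : n ^ (2 - σ) ≤ n ^ 2 := by
      rw [← Real.rpow_natCast]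
      exact Real.rpow_le_rpow_of_exponent_le (by linarith) (by push_cast; linarith)
    have h4 : s ^ (σ - 2) ≤ s ^ (σ' - 2) :=
      Real.rpow_le_rpow_of_exponent_ge hs0 hs1 (by linarith)
    have h5 : 0 ≤ s ^ (σ' - 2) := by positivity
    have h6 : Λ ^ (2 - σ) ≤ n ^ 2 * s ^ (σ' - 2) := by
      rw [h2] at h1
      exact h1.trans (mul_le_mul h3 h4 (by positivity) (by positivity))
    have h7 : C * Λ ^ (2 - σ) ≤ C * (n ^ 2 * s ^ (σ' - 2)) :=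
      mul_le_mul_of_nonneg_left h6 (by linarith)
    nlinarith [mul_nonneg (show (0 : ℝ) ≤ 4 * C' + C₂ by linarith) h5]

/-- Module RTE. -/
theorem hRTE (hGRB : StGRB) (hCMP : StCMP) (hLOB : StLOB) : StRTE := by
  intro n hn N M _ _ _ _ _ _ T F ts κ₀ δ hP
  obtain ⟨t₂, C, σ, Λ₀, h2⟩ := hGRB n hn N M T F ts κ₀ δ hP
  obtain ⟨C', σ', t₃, hC', hσ', hσσ, ht₃, hcmp⟩ := hCMP n hn N M T F ts κ₀ δ t₂ C σ Λ₀ h2
  obtain ⟨C₂, t₃', hC₂, ht₃', hlob⟩ := hLOB n hn N M T F ts κ₀ δ t₂ C σ Λ₀ h2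
  have hn' : (2 : ℝ) ≤ n := by exact_mod_cast hn
  have hC1 := h2.C1
  have hσ1 := h2.σ1
  have ht2 := h2.t2
  have hts := hP.ts0
  have hT1 := hP.T1
  obtain ⟨Cf, hCf⟩ : ∃ Cf : ℝ, Cf = 4 * C' + C₂ + C * (n : ℝ) ^ 2 := ⟨_, rfl⟩
  have hCf1 : 1 ≤ Cf := by
    rw [hCf]
    nlinarith
  obtain ⟨s₄, hs₄⟩ : ∃ s₄ : ℝ, s₄ = min (min (T - t₃) (T - t₃')) ((1 / (2 * Cf)) ^ (1 / σ')) :=
    ⟨_, rfl⟩
  have hs40 : 0 < s₄ := by
    rw [hs₄]
    refine lt_min (lt_min ?_ ?_) (by positivity)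
    · linarith [ht₃.2]
    · linarith [ht₃'.2]
  have hs41 : s₄ ≤ T - t₃ := by
    rw [hs₄]
    exact (min_le_left _ _).trans (min_le_left _ _)
  have hs42 : s₄ ≤ T - t₃' := by
    rw [hs₄]
    exact (min_le_left _ _).trans (min_le_right _ _)
  have hs43 : Cf * s₄ ^ σ' ≤ 1 / 2 := by
    have e1 : s₄ ≤ (1 / (2 * Cf)) ^ (1 / σ') := by
      rw [hs₄]
      exact min_le_right _ _
    have e2 : s₄ ^ σ' ≤ ((1 / (2 * Cf)) ^ (1 / σ')) ^ σ' :=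
      Real.rpow_le_rpow hs40.le e1 hσ'.le
    have e3 : ((1 / (2 * Cf)) ^ (1 / σ')) ^ σ' = 1 / (2 * Cf) := by
      rw [← Real.rpow_mul (by positivity), one_div_mul_cancel hσ'.ne', Real.rpow_one]
    rw [e3] at e2
    calc Cf * s₄ ^ σ' ≤ Cf * (1 / (2 * Cf)) := mul_le_mul_of_nonneg_left e2 (by linarith)
      _ = 1 / 2 := by field_simp
  -- the estimates
  have key : ∀ t ∈ Ico (T - s₄) T, ∀ q,
      |2 / n * ((T - t) * ‖HH (n := n) F q t‖ ^ 2) - 1| ≤ Cf * (T - t) ^ σ' ∧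
      thN n F q t ≤ Cf * (T - t) ^ (σ' - 1) ∧ eH n F q t ≤ Cf * (T - t) ^ (σ' - 2) := by
    intro t ht q
    have hs0 : 0 < T - t := by linarith [ht.2]
    have hss : T - t ≤ s₄ := by linarith [ht.1]
    have ht3 : t ∈ Ico t₃ T := ⟨by linarith, ht.2⟩
    have ht3' : t ∈ Ico t₃' T := ⟨by linarith, ht.2⟩
    have hs1 : T - t ≤ 1 := by linarith [ht₃.1, ht2.1, hts.1, ht3.1]
    obtain ⟨Λ, hΛ1, ha, hΛY, hup, hq⟩ := hcmp t ht3
    obtain ⟨q', hq'⟩ := hlob t ht3'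
    have hb : C₂ * (T - t) ^ σ ≤ 1 / 2 := by
      have e1 : (T - t) ^ σ ≤ (T - t) ^ σ' := Real.rpow_le_rpow_of_exponent_ge hs0 hs1 hσσ
      have e2 : (T - t) ^ σ' ≤ s₄ ^ σ' := Real.rpow_le_rpow hs0.le hss hσ'.le
      have e3 : C₂ * (T - t) ^ σ ≤ C₂ * s₄ ^ σ' :=
        mul_le_mul_of_nonneg_left (e1.trans e2) hC₂.le
      have e4 : C₂ * s₄ ^ σ' ≤ Cf * s₄ ^ σ' := by
        refine mul_le_mul_of_nonneg_right ?_ (by positivity)
        rw [hCf]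
        nlinarith [sq_nonneg (n : ℝ)]
      linarith
    obtain ⟨r1, r2, r3⟩ := rte_real hn' hC1 hC' hC₂ hσ' hσσ hσ1 hs0 hs1 hΛ1 ha hb (hΛY q') hup hq'
    rw [← hCf] at r1 r2 r3
    exact ⟨r1 _ (hq q).1 (hΛY q), (hq q).2.1.trans r2, (hq q).2.2.trans r3⟩
  refine ⟨T - s₄, Cf, σ', by linarith [ht₃.1, ht2.1], ?_⟩
  exact
    { fl := hP.fl
      T1 := hP.T1
      t4 := ⟨by linarith [ht₃.1, ht2.1, hts.1], by linarith⟩
      C1 := hCf1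
      α0 := hσ'
      α1 := by linarith
      Y1 := hP.Y1
      yy := fun t ht q => (key t ht q).1
      th := fun t ht q => (key t ht q).2.1
      eh := fun t ht q => (key t ht q).2.2
      sm := by rw [sub_sub_cancel]; exact hs43 }

end Helper81.HC
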